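import Pool.Agent.N282.AX.RelW
import Pool.Agent.N561.AX.StmG
import Pool.Agent.TH563.CV.Hub
import Pool.Agent.TH563.CV.Base
import Pool.Agent.TH563.CV.Sig
import Pool.Agent.TH609.J368

/-!
# Project AX (helper561), jobs AXG/1 and AXG/3 (helper282): the complex volume of an edge
-/

set_option autoImplicit false

namespace Pool.Agent.N282.AX

open Pool.Agent.W711.HT hiding XX gd
open Pool.Agent.TH563.CV (S_DER S_BASE GP der base ref sig gp_base gp_hub)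
open Pool.Agent.TH563.Z (Adm SDZ Rz)
open Pool.Agent.TH609.Z (exists_g valz shp hg_symm HB)
open Pool.Agent.N561 (HW SW SR EFW dst sg sf sx gdi S_EDGE S_SGP S_SF SGP)
open Pool.Agent.N561.AX (GEOC S_GPS S_GEOH)
open Filter Topology Set Metric
open scoped Real

theorem der_base : S_BASE := base der (ref der) (sig der)

/-- job AXG3 -/
theorem geoh : S_GEOH := by
  intro η r c C s dl hA hS
  obtain ⟨g, hg, h⟩ := exists_g hA hS
  refine ⟨g, hg, fun ψ φ h1 h2 => ?_⟩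
  have hb := h ψ φ h1 h2
  have hh := hb.hg
  exact ⟨dl ψ φ, ⟨⟨⟨hh.sd.im1, hh.sd.im2⟩, ⟨hh.sd'.im1, hh.sd'.im2⟩, hh.den, hh.eq, shp hh,
    shp (hg_symm hh)⟩, (hS.sder1 ψ hb.m1 φ hb.m2).deriv, (hS.sder2 ψ hb.m1 φ hb.m2).deriv,
    valz hS hb.m1 hb.m2 hb.dr hb.r1 hb.r2⟩, gp_hub der der_base hA hS hg h h1 h2⟩

/-! ### The base points -/

lemma dst_im (η : ℝ) : dst 0 ((η : ℂ) * Complex.I) = ((Pool.Agent.TH563.Z.dz η : ℝ) : ℂ) := by
  have hc : Complex.cos ((η : ℂ) * Complex.I / 2) = ((Real.cosh (η / 2) : ℝ) : ℂ) := by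
    rw [show (η : ℂ) * Complex.I / 2 = ((η / 2 : ℝ) : ℂ) * Complex.I by push_cast; ring,
      Complex.cos_mul_I, ← Complex.ofReal_cosh]
  have h1 : dst 0 ((η : ℂ) * Complex.I) =
      ((1 / π * Real.arctan (Real.cosh (η / 2)) : ℝ) : ℂ) := by
    unfold dst
    rw [hc, zero_div, Complex.cos_zero, Complex.sin_zero, one_mul]
    norm_num
  rw [h1]
  congr 1
  set c := Real.cosh (η / 2) with hcdef
  have hc0 : 0 < c := Real.cosh_pos _
  have e1 : Real.cosh η = 2 * c ^ 2 - 1 := by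
    have h2 := Real.cosh_sq (η / 2)
    have h3 := Real.cosh_two_mul (η / 2)
    rw [show 2 * (η / 2) = η by ring] at h3
    rw [h3, hcdef]
    linarith
  have e2 : (1 - Real.cosh η) / (3 + Real.cosh η) = Real.cos (2 * Real.arctan c) := by
    rw [Real.cos_two_mul, Real.cos_sq_arctan, e1]
    have : (1 : ℝ) + c ^ 2 ≠ 0 := by positivity
    have h3 : (3 : ℝ) + (2 * c ^ 2 - 1) ≠ 0 := by
      have : (3 : ℝ) + (2 * c ^ 2 - 1) = 2 * (1 + c ^ 2) := by ring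
      rw [this]; positivity
    field_simp
    ring
  have e3 : Real.arccos ((1 - Real.cosh η) / (3 + Real.cosh η)) = 2 * Real.arctan c := by
    rw [e2]
    refine Real.arccos_cos ?_ ?_
    · have := Real.arctan_nonneg.2 hc0.le
      linarith
    · have := Real.arctan_lt_pi_div_two c
      linarith
  unfold Pool.Agent.TH563.Z.dz
  rw [e3]
  have hpi : π ≠ 0 := Real.pi_ne_zero
  field_simp

lemma sf_im (hS : S_SF) (η : ℝ) : sf ((η : ℂ) * Complex.I) =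
    ((Pool.Agent.TH563.Z.AA η : ℝ) : ℂ) := by
  have hg : ∀ t : ℝ, gdi ((t : ℂ) * ((η : ℂ) * Complex.I) / 2) =
      ((Pool.Agent.TH563.Z.gd (t * (η / 2)) : ℝ) : ℂ) * Complex.I := by
    intro t
    set w : ℂ := (t : ℂ) * ((η : ℂ) * Complex.I) / 2 with hw
    have hw' : w = ((t * (η / 2) : ℝ) : ℂ) * Complex.I := by
      rw [hw]; push_cast; ring
    have hre : w.re = 0 := by rw [hw', Complex.re_ofReal_mul]; simp
    have him : w.im = t * (η / 2) := by rw [hw', Complex.im_ofReal_mul]; simp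
    obtain ⟨-, h2, h3⟩ := hS.1 w (by rw [hre, abs_zero]; positivity)
    apply Complex.ext
    · rw [h2, hre, Real.sin_zero, zero_div, Real.artanh_zero, Complex.re_ofReal_mul]
      simp
    · rw [h3, hre, him, Real.cos_zero, div_one, Complex.im_ofReal_mul]
      simp [Pool.Agent.TH563.Z.gd]
  have hI : ∫ t in (0:ℝ)..1, gdi ((t : ℂ) * ((η : ℂ) * Complex.I) / 2) =
      ((∫ t in (0:ℝ)..1, Pool.Agent.TH563.Z.gd (t * (η / 2)) : ℝ) : ℂ) * Complex.I := by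
    rw [← intervalIntegral.integral_ofReal, ← intervalIntegral.integral_mul_const]
    exact intervalIntegral.integral_congr fun t _ => hg t
  have hJ := intervalIntegral.mul_integral_comp_mul_right (a := 0) (b := 1) (c := η / 2)
    (f := Pool.Agent.TH563.Z.gd)
  rw [zero_mul, one_mul] at hJ
  unfold sf Pool.Agent.TH563.Z.AA
  rw [hI, ← hJ]
  set J := ∫ t in (0:ℝ)..1, Pool.Agent.TH563.Z.gd (t * (η / 2))
  have hpi : (π : ℂ) ≠ 0 := by exact_mod_cast Real.pi_ne_zero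
  push_cast
  field_simp
  linear_combination (-(η : ℂ) * (J : ℂ)) * Complex.I_sq

lemma adm_of {η : ℝ} (h0 : 0 < η) (h1 : η < 39 / 20) : Adm η := by
  refine ⟨h0, ?_⟩
  have h2 : Real.cosh (η / 2) ≤ Real.cosh 1 := by
    rw [Real.cosh_le_cosh, abs_of_pos (by positivity), abs_one]
    linarith
  refine h2.trans ?_
  have h3 := Real.exp_one_lt_d9
  have h4 : Real.exp (-1) < 1 := by
    rw [Real.exp_lt_one_iff]; norm_num
  rw [Real.cosh_eq]
  linarith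

lemma hor {φ₀ : ℂ} (h : φ₀ ∈ Pool.Agent.N561.GG) (h0 : 0 ≤ φ₀.re) {t : ℝ}
    (ht : t ∈ Icc 0 φ₀.re) : (t : ℂ) + (φ₀.im : ℂ) * Complex.I ∈ Pool.Agent.N561.GG := by
  obtain ⟨h1, h2, h3, h4⟩ := h
  have hre : ((t : ℂ) + (φ₀.im : ℂ) * Complex.I).re = t := by simp
  have him : ((t : ℂ) + (φ₀.im : ℂ) * Complex.I).im = φ₀.im := by simp
  rw [abs_of_nonneg h0] at h1
  refine ⟨?_, ?_, ?_, ?_⟩
  · rw [hre, abs_of_nonneg ht.1]
    exact ht.2.trans_lt h1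
  · rwa [him]
  · rwa [him]
  · rw [hre, him]
    have hpi := Real.pi_gt_three
    have h5 : Real.cos φ₀.re ≤ Real.cos t :=
      Real.cos_le_cos_of_nonneg_of_le_pi ht.1 (by linarith) ht.2
    have h6 : 0 < Real.cosh φ₀.im := Real.cosh_pos _
    nlinarith

/-- the complex volume on the line `ψ = 0` -/
theorem gp_line (hE : S_EDGE) (hG : S_SGP) (hS : S_SF) {φ₀ : ℂ} (h : φ₀ ∈ Pool.Agent.N561.GG)
    (h0 : 0 ≤ φ₀.re) : GP 0 φ₀ (2 * π * dst 0 φ₀) (sg 0 φ₀) = -(π : ℂ) ^ 2 / 2 := by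
  set η := φ₀.im with hη
  have hadm : Adm η := adm_of h.2.1 h.2.2.1
  have hφ : φ₀ = (φ₀.re : ℂ) + (η : ℂ) * Complex.I := by
    rw [hη]; exact (Complex.re_add_im φ₀).symm
  have hb : GP 0 ((η : ℂ) * Complex.I) (2 * π * dst 0 ((η : ℂ) * Complex.I))
      (sg 0 ((η : ℂ) * Complex.I)) = -(π : ℂ) ^ 2 / 2 := by
    have hm : (η : ℂ) * Complex.I ∈ Pool.Agent.N561.GG := by
      have := hor h h0 (t := 0) ⟨le_rfl, h0⟩
      rwa [Complex.ofReal_zero, zero_add] at this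
    rw [hS.2.2.2.1 _ hm, sf_im hS, dst_im]
    exact gp_base der der_base hadm
  rcases h0.eq_or_lt with h1 | h1
  · rw [hφ, ← h1, Complex.ofReal_zero, zero_add]
    exact hb
  · have key := pathW der h1 (p := fun _ => 0) (q := fun t => (t : ℂ) + (η : ℂ) * Complex.I)
      (U := fun t => 2 * π * dst 0 ((t : ℂ) + (η : ℂ) * Complex.I))
      (S := fun t => sg 0 ((t : ℂ) + (η : ℂ) * Complex.I))
      (p' := fun _ => 0) (q' := fun _ => 1) ?_ ?_ ?_ ?_ ?_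
    · simp only [Complex.ofReal_zero, zero_add] at key
      rw [hb, ← hφ] at key
      exact key
    · intro t ht
      obtain ⟨g, hg, hg'⟩ := hE _ (hor h h0 ht) (by simpa using ht.1)
      exact (hg' 0 ((t : ℂ) + (η : ℂ) * Complex.I) (by simpa using hg.le)
        (by rw [← hη, sub_self, norm_zero]; exact hg.le)).hg
    · intro t _
      exact hasDerivWithinAt_const _ _ _
    · intro t _
      exact ((Complex.ofRealCLM.hasDerivAt (x := t)).add_const _).hasDerivWithinAt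
    · intro t ht
      obtain ⟨r, c, C, hP⟩ := hG _ (hor h h0 ht)
      have hr := hP.hr.1
      have hopen : IsOpen (Rc r r ×ˢ ball ((t : ℂ) + (η : ℂ) * Complex.I) r) :=
        (Pool.Agent.W374.HT.Cch.Rc_open _ _).prod isOpen_ball
      have h3 : DifferentiableAt ℂ (fun p : ℂ × ℂ => dst p.1 p.2)
          ((0 : ℂ), (t : ℂ) + (η : ℂ) * Complex.I) :=
        hP.dan.differentiableAt (hopen.mem_nhds ⟨⟨by simpa using hr, by simpa using hr⟩,
          mem_ball_self hr⟩)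
      have h4 : HasDerivAt (fun t : ℝ => ((0 : ℂ), (t : ℂ) + (η : ℂ) * Complex.I))
          ((0 : ℂ), (1 : ℂ)) t :=
        (hasDerivAt_const _ _).prodMk ((Complex.ofRealCLM.hasDerivAt (x := t)).add_const _)
      have h5 := (h3.restrictScalars ℝ).comp t h4.differentiableAt
      exact (h5.const_mul (2 * (π : ℂ))).differentiableWithinAt
    · intro t ht
      obtain ⟨r, c, C, hP⟩ := hG _ (hor h h0 ht)
      have hr := hP.hr.1
      have h3 := hP.sder2 0 ⟨by simpa using hr, by simpa using hr⟩ _ (mem_ball_self hr)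
      have h4 : HasDerivAt (fun t : ℝ => (t : ℂ) + (η : ℂ) * Complex.I) 1 t :=
        (Complex.ofRealCLM.hasDerivAt (x := t)).add_const _
      have h5 := HasDerivAt.comp (h := fun t : ℝ => (t : ℂ) + (η : ℂ) * Complex.I) t h3 h4
      refine (h5.congr_deriv ?_).hasDerivWithinAt
      ring

/-- job AXG1, with `δ = dst ψ φ` -/
theorem gps' (hE : S_EDGE) (hG : S_SGP) (hS : S_SF) : ∀ φ₀ ∈ Pool.Agent.N561.GG, 0 ≤ φ₀.re →
    ∃ g : ℝ, 0 < g ∧ ∀ ψ φ : ℂ, ‖ψ‖ ≤ g → ‖φ - φ₀‖ ≤ g → EFW sg ψ φ (dst ψ φ) ∧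
      GP ψ φ (2 * π * dst ψ φ) (sg ψ φ) = -(π : ℂ) ^ 2 / 2 := by
  intro φ₀ h h0
  obtain ⟨g₁, hg₁, hE'⟩ := hE φ₀ h h0
  obtain ⟨r, c, C, hP⟩ := hG φ₀ h
  have hr := hP.hr.1
  refine ⟨min g₁ (r / 2), lt_min hg₁ (by linarith), fun ψ φ h1 h2 => ?_⟩
  have hg1 : ∀ x : ℝ, x ≤ min g₁ (r / 2) → x ≤ g₁ := fun x hx => hx.trans (min_le_left _ _)
  have hg2 : ∀ x : ℝ, x ≤ min g₁ (r / 2) → x < r := fun x hx => by
    have := hx.trans (min_le_right _ _)
    linarith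
  refine ⟨hE' ψ φ (hg1 _ h1) (hg1 _ h2), ?_⟩
  rw [← gp_line hE hG hS h h0]
  set d := φ - φ₀ with hd
  have hn1 (t : ℝ) (ht : t ∈ Icc (0 : ℝ) 1) : ‖(t : ℂ) * ψ‖ ≤ ‖ψ‖ := by
    rw [norm_mul, Complex.norm_real, Real.norm_of_nonneg ht.1]
    have := norm_nonneg ψ
    nlinarith [ht.1, ht.2]
  have hn2 (t : ℝ) (ht : t ∈ Icc (0 : ℝ) 1) : ‖φ₀ + (t : ℂ) * d - φ₀‖ ≤ ‖d‖ := by
    rw [add_sub_cancel_left, norm_mul, Complex.norm_real, Real.norm_of_nonneg ht.1]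
    have := norm_nonneg d
    nlinarith [ht.1, ht.2]
  have hm1 (t : ℝ) (ht : t ∈ Icc (0 : ℝ) 1) : (t : ℂ) * ψ ∈ Rc r r := by
    have h3 := ((hn1 t ht).trans h1)
    exact ⟨(Complex.abs_re_le_norm _).trans_lt (hg2 _ h3),
      (Complex.abs_im_le_norm _).trans_lt (hg2 _ h3)⟩
  have hm2 (t : ℝ) (ht : t ∈ Icc (0 : ℝ) 1) : φ₀ + (t : ℂ) * d ∈ ball φ₀ r := by
    rw [mem_ball, dist_eq_norm]
    exact hg2 _ ((hn2 t ht).trans h2)
  have hin (t : ℝ) (ht : t ∈ Icc (0 : ℝ) 1) :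
      EFW sg ((t : ℂ) * ψ) (φ₀ + (t : ℂ) * d) (dst ((t : ℂ) * ψ) (φ₀ + (t : ℂ) * d)) :=
    hE' _ _ (hg1 _ ((hn1 t ht).trans h1)) (hg1 _ ((hn2 t ht).trans h2))
  have hopen : IsOpen (Rc r r ×ˢ ball φ₀ r) :=
    (Pool.Agent.W374.HT.Cch.Rc_open _ _).prod isOpen_ball
  have hγ1 (t : ℝ) : HasDerivAt (fun t : ℝ => (t : ℂ) * ψ) ψ t := by
    simpa using (Complex.ofRealCLM.hasDerivAt (x := t)).mul_const ψ
  have hγ2 (t : ℝ) : HasDerivAt (fun t : ℝ => φ₀ + (t : ℂ) * d) d t := by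
    simpa using ((Complex.ofRealCLM.hasDerivAt (x := t)).mul_const d).const_add φ₀
  have hγ (t : ℝ) : HasDerivAt (fun t : ℝ => ((t : ℂ) * ψ, φ₀ + (t : ℂ) * d)) (ψ, d) t :=
    (hγ1 t).prodMk (hγ2 t)
  have key := pathW der zero_lt_one (p := fun t : ℝ => (t : ℂ) * ψ)
    (q := fun t : ℝ => φ₀ + (t : ℂ) * d)
    (U := fun t : ℝ => 2 * π * dst ((t : ℂ) * ψ) (φ₀ + (t : ℂ) * d))
    (S := fun t : ℝ => sg ((t : ℂ) * ψ) (φ₀ + (t : ℂ) * d))
    (p' := fun _ => ψ) (q' := fun _ => d) (fun t ht => (hin t ht).hg)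
    (fun t _ => (hγ1 t).hasDerivWithinAt) (fun t _ => (hγ2 t).hasDerivWithinAt) ?_ ?_
  · simp only [Complex.ofReal_one, one_mul, Complex.ofReal_zero, zero_mul, add_zero] at key
    have e : φ₀ + d = φ := by
      rw [hd]
      ring
    rwa [e] at key
  · intro t ht
    have h3 : DifferentiableAt ℂ (fun p : ℂ × ℂ => dst p.1 p.2)
        ((t : ℂ) * ψ, φ₀ + (t : ℂ) * d) :=
      hP.dan.differentiableAt (hopen.mem_nhds ⟨hm1 t ht, hm2 t ht⟩)
    have h4 := (h3.restrictScalars ℝ).comp t (hγ t).differentiableAt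
    exact (h4.const_mul (2 * (π : ℂ))).differentiableWithinAt
  · intro t ht
    have h3 : HasFDerivAt (fun p : ℂ × ℂ => sg p.1 p.2) _
        ((t : ℂ) * ψ, φ₀ + (t : ℂ) * d) :=
      (hP.san.differentiableAt (hopen.mem_nhds ⟨hm1 t ht, hm2 t ht⟩)).hasFDerivAt
    set F := fderiv ℂ (fun p : ℂ × ℂ => sg p.1 p.2) ((t : ℂ) * ψ, φ₀ + (t : ℂ) * d)
      with hF
    have f1 : F (1, 0) = -(1 / (2 * π)) * Lg (2 * π * dst ((t : ℂ) * ψ)
        (φ₀ + (t : ℂ) * d)) ((t : ℂ) * ψ) := by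
      have a1 : HasDerivAt (fun z : ℂ => (z, φ₀ + (t : ℂ) * d)) ((1 : ℂ), (0 : ℂ))
          ((t : ℂ) * ψ) := (hasDerivAt_id _).prodMk (hasDerivAt_const _ _)
      have a2 := HasFDerivAt.comp_hasDerivAt (l := fun p : ℂ × ℂ => sg p.1 p.2)
        ((t : ℂ) * ψ) h3 a1
      exact a2.unique (hP.sder1 _ (hm1 t ht) _ (hm2 t ht))
    have f2 : F (0, 1) = -(1 / (2 * π)) * Lg (2 * π * dst ((t : ℂ) * ψ)
        (φ₀ + (t : ℂ) * d)) (φ₀ + (t : ℂ) * d) := by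
      have a1 : HasDerivAt (fun z : ℂ => ((t : ℂ) * ψ, z)) ((0 : ℂ), (1 : ℂ))
          (φ₀ + (t : ℂ) * d) := (hasDerivAt_const _ _).prodMk (hasDerivAt_id _)
      have a2 := HasFDerivAt.comp_hasDerivAt (l := fun p : ℂ × ℂ => sg p.1 p.2)
        (φ₀ + (t : ℂ) * d) h3 a1
      exact a2.unique (hP.sder2 _ (hm1 t ht) _ (hm2 t ht))
    have a3 := HasFDerivAt.comp_hasDerivAt (l := fun p : ℂ × ℂ => sg p.1 p.2) t
      (h3.restrictScalars ℝ) (hγ t)
    refine (a3.congr_deriv ?_).hasDerivWithinAt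
    have e : ((ψ, d) : ℂ × ℂ) = ψ • ((1 : ℂ), (0 : ℂ)) + d • ((0 : ℂ), (1 : ℂ)) := by
      ext <;> simp
    rw [ContinuousLinearMap.coe_restrictScalars', e, map_add, map_smul, map_smul, f1, f2,
      smul_eq_mul, smul_eq_mul]
    ring

/-- job AXG1 -/
theorem gps (hE : S_EDGE) (hG : S_SGP) (hS : S_SF) : S_GPS := by
  intro φ₀ h h0
  obtain ⟨g, hg, h'⟩ := gps' hE hG hS φ₀ h h0
  exact ⟨g, hg, fun ψ φ h1 h2 => ⟨dst ψ φ, h' ψ φ h1 h2⟩⟩

end Pool.Agent.N282.AX
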