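import Pool.Agent.N561.G.HingeW
import Pool.Agent.TH563.CV.Path

/-!
# Project AX (helper561), job AXG/1 (helper282): logarithms of the shapes and the sum of the
dilogarithms along a path of hinges, under the conditions `HW`

Copies of `TH563/CV/RelG.lean` and `TH563/CV/Path.lean` with `HG` replaced by `HW`.
-/

set_option autoImplicit false

namespace Pool.Agent.N282.AX

open Pool.Agent.W711.HT hiding XX
open Pool.Agent.W719.AR (Fl flS)
open Pool.Agent.W864.AR (t1 t2)
open Pool.Agent.TH609.UV (fe)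
open Pool.Agent.TH609.Z (ex)
open Pool.Agent.N561 (HW SW SR)
open Pool.Agent.N561.G (hw_symm ne_X1 ne_G1 ne_XG ne_XaG one_sub_t1 one_sub_t2 exp_form hinge)
open Pool.Agent.W554.HT (tri)
open Pool.Agent.TH563.CV
open Filter Topology Set
open scoped Real

lemma z_imW {ψ ψ' u : ℂ} (h : HW ψ ψ' u) : 0 < (z1 ψ u).im ∧ 0 < (z2 ψ u).im :=
  ⟨h.sd.im1, h.sd.im2⟩

theorem lrW {ψ ψ' u : ℂ} (h : HW ψ ψ' u) :
    Complex.log (z1 ψ u) + Complex.log (z2 ψ u) - Complex.log (1 - z1 ψ u) =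
      π * Complex.I + Complex.I * ψ ∧
    Complex.log (z1 ψ u) + Complex.log (1 - z2 ψ u) = Lg u ψ ∧
    2 * Complex.log (z2 ψ u) + Complex.log (z1 ψ' u) - Complex.log (1 - z2 ψ' u) =
      π * Complex.I + Complex.I * ψ := by
  have h' := hw_symm h
  have hn := h.sd
  have hn' := h.sd'
  have hW := exp_form h.sd
  have hg1 := hinge h
  have hX : ex u ≠ 0 := Complex.exp_ne_zero _
  have hX1 := ne_X1 hn
  have hG : ex ψ ≠ 0 := Complex.exp_ne_zero _
  have hG1 := ne_G1 hn
  have hXG := ne_XG hn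
  have hXaG := ne_XaG hn
  have hK : ex ψ' ≠ 0 := Complex.exp_ne_zero _
  have hK1 := ne_G1 hn'
  have hXK := ne_XG hn'
  have hXaK := ne_XaG hn'
  have i1 := (z_imW h).1
  have i2 := (z_imW h).2
  have j1 := (z_imW h').1
  have j2 := (z_imW h').2
  have q1 := one_sub_t1 hn
  have q3 := one_sub_t2 hn
  have p3 := one_sub_t2 hn'
  obtain ⟨t10, t11, t12, t13, t14, t15, -, -, -⟩ := tri i1
  obtain ⟨t20, t21, t22, t23, t24, t25, -, -, -⟩ := tri i2
  obtain ⟨u10, u11, u12, u13, u14, u15, -, -, -⟩ := tri j1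
  obtain ⟨u20, u21, u22, u23, u24, u25, -, -, -⟩ := tri j2
  obtain ⟨-, -, -, s4, s5, s6⟩ := h.sr
  have a1 := arg_one_div i1
  have a2 := arg_one_div i2
  have b2 := arg_one_div j2
  simp only [fe, flS, Fl.tw, Fl.cr] at s4 s5 s6
  have hI (ψ : ℂ) : (π * Complex.I + Complex.I * ψ).im = π + ψ.re := by simp
  have hE (ψ : ℂ) : Complex.exp (π * Complex.I + Complex.I * ψ) = -ex ψ := by
    rw [Complex.exp_add, Complex.exp_pi_mul_I]; ring
  have y1 : z1 ψ u = t1 (ex u) (ex ψ) := rfl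
  have y2 : z2 ψ u = t2 (ex u) (ex ψ) := rfl
  have y3 : z1 ψ' u = t1 (ex u) (ex ψ') := rfl
  have y4 : z2 ψ' u = t2 (ex u) (ex ψ') := rfl
  refine ⟨log_eq ?_ ?_, log_eq ?_ ?_, log_eq ?_ ?_⟩
  · rw [hE, Complex.exp_sub, Complex.exp_add, Complex.exp_log t10, Complex.exp_log t20,
      Complex.exp_log t11]
    rw [y1, y2, q1, t1, t2]
    have hX1' : 1 - ex u ≠ 0 := by
      intro h0
      apply hX1
      linear_combination -h0
    field_simp
    ring
  · rw [hI, Complex.sub_im, Complex.add_im, Complex.log_im, Complex.log_im, Complex.log_im]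
    change (z1 ψ u).arg + (z2 ψ u).arg + (1 / (1 - z1 ψ u)).arg - π = ψ.re at s5
    linarith
  · rw [hW, Complex.exp_add, Complex.exp_log t10, Complex.exp_log t21]
    rw [y1, y2, q3, t1]
    field_simp
    ring
  · rw [Complex.add_im, Complex.log_im, Complex.log_im]
    change (z1 ψ u).arg + (z2 ψ u).arg + (1 - 1 / z2 ψ u).arg - π = (Lg u ψ).im at s6
    linarith
  · rw [hE, Complex.exp_sub, Complex.exp_add, two_mul, Complex.exp_add, Complex.exp_log t20,
      Complex.exp_log u10, Complex.exp_log u21]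
    rw [y2, y3, y4, p3, t1, t2]
    field_simp
    linear_combination (-1) * hg1
  · rw [hI, Complex.sub_im, Complex.add_im, Complex.log_im, Complex.log_im]
    have e : (2 * Complex.log (z2 ψ u)).im = 2 * (z2 ψ u).arg := by
      rw [two_mul, Complex.add_im, Complex.log_im, two_mul]
    rw [e]
    change 2 * (z2 ψ u).arg + ((z1 ψ' u).arg + (1 / (1 - z2 ψ' u)).arg) = π + ψ.re at s4
    linarith

theorem lr3W {ψ ψ' u : ℂ} (h : HW ψ ψ' u) :
    Complex.log (z2 ψ u) = (π * Complex.I + Complex.I * ψ + (Complex.log (z1 ψ' u) +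
      Complex.log (1 - z2 ψ' u))) / 2 - Complex.log (z1 ψ' u) ∧
    Complex.log (1 - z1 ψ u) = -(π * Complex.I + Complex.I * ψ - (Complex.log (z1 ψ' u) +
      Complex.log (1 - z2 ψ' u))) / 2 + Complex.log (z1 ψ u) - Complex.log (z1 ψ' u) := by
  obtain ⟨a1, a2, a3⟩ := lrW h
  refine ⟨?_, ?_⟩
  · linear_combination (1 / 2) * a3
  · linear_combination -a1 + (1 / 2) * a3

/-- the shapes along a path -/
lemma dzW {p U : ℝ → ℂ} {s : Set ℝ} {t : ℝ} (hp : DifferentiableWithinAt ℝ p s t)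
    (hU : DifferentiableWithinAt ℝ U s t) (h : SW (p t) (U t)) :
    (∃ a, HasDerivWithinAt (fun r => z1 (p r) (U r)) a s t) ∧
    (∃ a, HasDerivWithinAt (fun r => z2 (p r) (U r)) a s t) := by
  have hX : DifferentiableWithinAt ℝ (fun r => Complex.exp (Complex.I * U r)) s t :=
    (hU.const_mul Complex.I).cexp
  have hG : DifferentiableWithinAt ℝ (fun r => Complex.exp (Complex.I * p r)) s t :=
    (hp.const_mul Complex.I).cexp
  refine ⟨⟨_, DifferentiableWithinAt.hasDerivWithinAt ?_⟩,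
    ⟨_, DifferentiableWithinAt.hasDerivWithinAt ?_⟩⟩
  · unfold z1 t1
    exact (hX.mul (hG.add_const 1)).fun_div ((hX.mul hG).const_add 1) (ne_XG h)
  · unfold z2 t2
    exact ((hX.sub_const 1).mul hG).fun_div (hX.mul (hG.const_add 1))
      (mul_ne_zero (Complex.exp_ne_zero _) (ne_G1 h))

/-- the sum of the dilogarithms is constant along a path of hinges -/
theorem pathW (hD : S_DER) {a b : ℝ} (hab : a < b) {p q U S p' q' : ℝ → ℂ}
    (hHG : ∀ t ∈ Icc a b, HW (p t) (q t) (U t))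
    (hp : ∀ t ∈ Icc a b, HasDerivWithinAt p (p' t) (Icc a b) t)
    (hq : ∀ t ∈ Icc a b, HasDerivWithinAt q (q' t) (Icc a b) t)
    (hU : ∀ t ∈ Icc a b, DifferentiableWithinAt ℝ U (Icc a b) t)
    (hS : ∀ t ∈ Icc a b, HasDerivWithinAt S
      (-(1 / (2 * π)) * (Lg (U t) (p t) * p' t + Lg (U t) (q t) * q' t)) (Icc a b) t) :
    GP (p b) (q b) (U b) (S b) = GP (p a) (q a) (U a) (S a) := by
  have key : ∀ t ∈ Icc a b, HasDerivWithinAt (fun t => GP (p t) (q t) (U t) (S t)) 0
      (Icc a b) t := by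
    intro t ht
    have hh := hHG t ht
    obtain ⟨⟨a1, d1⟩, ⟨a2, d2⟩⟩ := dzW (hp t ht).differentiableWithinAt (hU t ht) hh.sd
    obtain ⟨⟨a3, d3⟩, ⟨a4, d4⟩⟩ := dzW (hq t ht).differentiableWithinAt (hU t ht) hh.sd'
    have i1 := z_imW hh
    have i2 := z_imW (hw_symm hh)
    obtain ⟨l1, m1, r1⟩ := ddR hD d1 i1.1
    obtain ⟨l2, m2, r2⟩ := ddR hD d2 i1.2
    obtain ⟨l3, m3, r3⟩ := ddR hD d3 i2.1
    obtain ⟨l4, m4, r4⟩ := ddR hD d4 i2.2
    have main := ((((((r1.add r2).add r3).add r4).const_mul 2).sub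
      (((l1.add m2).add (l3.add m4)).const_mul (π * Complex.I / 2))).sub
      ((hS t ht).const_mul (Complex.I * 2 * π))).sub
      ((((hp t ht).mul (l1.add m2)).add ((hq t ht).mul (l3.add m4))).const_mul (Complex.I / 2))
    have hI : HasDerivWithinAt (fun r => π * Complex.I + Complex.I * p r) (Complex.I * p' t)
        (Icc a b) t := ((hp t ht).const_mul Complex.I).const_add (π * Complex.I)
    have hI' : HasDerivWithinAt (fun r => π * Complex.I + Complex.I * q r) (Complex.I * q' t)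
        (Icc a b) t := ((hq t ht).const_mul Complex.I).const_add (π * Complex.I)
    have hu := uniqueDiffOn_Icc hab t ht
    have g1 := hu.eq_deriv _ l2 ((((hI.add (l3.add m4)).div_const 2).sub l3).congr
      (fun r hr => (lr3W (hHG r hr)).1) (lr3W hh).1)
    have g2 := hu.eq_deriv _ m1 (((((hI.sub (l3.add m4)).neg.div_const 2).add l1).sub l3).congr
      (fun r hr => (lr3W (hHG r hr)).2) (lr3W hh).2)
    have g3 := hu.eq_deriv _ l4 ((((hI'.add (l1.add m2)).div_const 2).sub l1).congr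
      (fun r hr => (lr3W (hw_symm (hHG r hr))).1) (lr3W (hw_symm hh)).1)
    have g4 := hu.eq_deriv _ m3 (((((hI'.sub (l1.add m2)).neg.div_const 2).add l3).sub l1).congr
      (fun r hr => (lr3W (hw_symm (hHG r hr))).2) (lr3W (hw_symm hh)).2)
    refine main.congr_deriv ?_
    exact algG _ _ _ _ _ _ _ _ _ _ _ _ _ _ _ _ _ _ _ _ _ _ (lr3W hh).1 (lr3W hh).2
      (lr3W (hw_symm hh)).1 (lr3W (hw_symm hh)).2 (lrW hh).2.1.symm (lrW (hw_symm hh)).2.1.symm
      g1 g2 g3 g4
  refine constant_of_derivWithin_zero (fun t ht => (key t ht).differentiableWithinAt)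
    (fun t ht => (key t (Ico_subset_Icc_self ht)).derivWithin
      (uniqueDiffOn_Icc hab t (Ico_subset_Icc_self ht))) b (right_mem_Icc.2 hab.le)

end Pool.Agent.N282.AX
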